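import Pool.Agent.Lib.MP_07b2d0_nt.Af.Top
import Pool.Agent.Lib.MP_07b2d0_nt.Tq.PellJ

set_option autoImplicit false

namespace Pool.Agent.Results.MP_07b2d0_nt.GenusTwoHeight

open CategoryTheory AlgebraicGeometry Polynomial NumberField Pool.Agent.Lib.MP_07b2d0_nt
  Pool.Agent.Lib.MP_07b2d0_nt.St

theorem result : ∃ c : ℕ → ℕ → ℕ, Computable₂ c ∧
    ∀ (N : ℕ) (k : Type) [Field k] [NumberField k] (A : Over (Spec (.of (ON k N))))
      (f : k[X]) (c₀ : AlgebraicClosure k) (a : Fin 6 → AlgebraicClosure k)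
      (O : Finset (Finset (Fin 6))),
      0 < N → (∀ p : ℕ, p.Prime → (p : ℤ) ∣ discr k → p ∣ N) → f.Separable →
      f.map (algebraMap k (AlgebraicClosure k)) =
        C c₀ * ∏ i, ((X : (AlgebraicClosure k)[X]) - C (a i)) →
      AbJac 2 (ON k N).subtype f A →
      O.card = 4 → (∀ T ∈ O, T.card = 3 ∧ 0 ∈ T) →
      (∀ V : ValuationSubring (AlgebraicClosure k), (N : AlgebraicClosure k)⁻¹ ∈ V →
        ∀ T ∈ O, ∃ i ∈ T, ∃ i' ∈ T, ∃ l ∉ T, ∃ l' ∉ T, ∃ z ∈ V,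
          z * ((a i - a i') * (a l - a l')) = (a i - a l) * (a i' - a l')) →
      HLe 2 (ON k N).subtype A (c N (Module.finrank ℚ k)) := by
  obtain ⟨c, hc, H⟩ := Af.omit_main
  refine ⟨fun N D => c (N, 2, D), hc.comp (.pair .fst (.pair (.const _) .snd)),
    fun N k _ _ A f c₀ a O h1 h2 h3 h4 hA h5 h6 h7 => ?_⟩
  have h8 := h3.map (f := algebraMap k (AlgebraicClosure k))
  rw [h4] at h8
  exact (H 2 N 2 6 k A f c₀ a (fun _ => 1) Nat.prime_two h1 h2 (by simpa using h4)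
    (fun h => h8.ne_zero (by rw [h, C_0, zero_mul]))
    (separable_prod_X_sub_C_iff.1 h8.of_mul_right) (fun _ => by omega) (by simp) (by omega)
    (by omega) (.inr ⟨rfl, rfl, O, h5, fun T hT => ⟨(h6 T hT).1, 0, (h6 T hT).2, rfl⟩, h7⟩)
    (Tq.kumJac_of_abJac hA)).st

/-- Jacobians of `y ^ ℓ = f(x)`: each branch point from the fourth on forms with three earlier ones
a quadruple, one of whose three splittings into pairs (two if `ℓ = 2`) never occurs outside `N`.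
For Picard curves (`ℓ = 3`, `e = (1, 1, 2, 1, 1)`, `i, j, p = 0, 1, 2`) one of six types is
omitted. -/
theorem chain : ∃ c : ℕ × ℕ × ℕ → ℕ, Computable c ∧
    ∀ (ℓ N g r : ℕ) (k : Type) [Field k] [NumberField k] (A : Over (Spec (.of (ON k N))))
      (f : k[X]) (c₀ : AlgebraicClosure k) (a : Fin r → AlgebraicClosure k) (e : Fin r → ℕ),
      ℓ.Prime → 0 < N → (∀ p : ℕ, p.Prime → (p : ℤ) ∣ discr k → p ∣ N) →
      f.map (algebraMap k (AlgebraicClosure k)) =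
        C c₀ * ∏ i, ((X : (AlgebraicClosure k)[X]) - C (a i)) ^ e i → c₀ ≠ 0 →
      Function.Injective a → (∀ i, ¬ ℓ ∣ e i) → ℓ ∣ ∑ i, e i → 5 ≤ r →
      2 * g + 2 * ℓ = 2 + r * (ℓ - 1) →
      (∀ q : Fin r, 3 ≤ q.1 → ∃ i < q, ∃ j < q, ∃ p < q, i ≠ j ∧ i ≠ p ∧ j ≠ p ∧
        ∀ V : ValuationSubring (AlgebraicClosure k), (N : AlgebraicClosure k)⁻¹ ∈ V →
          (∃ z ∈ V, z * ((a i - a j) * (a p - a q)) = (a i - a p) * (a j - a q)) ∧
          (ℓ = 2 → ∃ z ∈ V, z * ((a i - a p) * (a j - a q)) = (a i - a j) * (a p - a q))) →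
      KumJac g ℓ (ON k N).subtype (fun _ : Fin 1 => f) A →
      HLe g (ON k N).subtype A (c (N, g, Module.finrank ℚ k)) := by
  obtain ⟨c, hc, H⟩ := Af.omit_main
  exact ⟨c, hc, fun ℓ N g r k _ _ A f c₀ a e h1 h2 h3 h4 h5 h6 h7 h8 h9 h10 h11 hA =>
    (H ℓ N g r k A f c₀ a e h1 h2 h3 h4 h5 h6 h7 h8 h9 h10 (.inl h11) hA).st⟩

end Pool.Agent.Results.MP_07b2d0_nt.GenusTwoHeight
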