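import Pool.Agent.Lib.MP_07b2d0_nt.Kh.NTop

set_option autoImplicit false

namespace Pool.Agent.Results.MP_07b2d0_nt.KummerHeight

open CategoryTheory AlgebraicGeometry Polynomial NumberField Pool.Agent.Lib.MP_07b2d0_nt
  Pool.Agent.Lib.MP_07b2d0_nt.St

theorem result : ∃ c : ℕ × ℕ × ℕ → ℕ, Computable c ∧
    ∀ (ℓ N g m r : ℕ) (k : Type) [Field k] [NumberField k] (A : Over (Spec (.of (ON k N))))
      (f : Fin m → k[X]) (c₀ : Fin m → AlgebraicClosure k) (a : Fin r → AlgebraicClosure k)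
      (e : Fin m → Fin r → ℕ),
      ℓ.Prime → 0 < N → (∀ p : ℕ, p.Prime → (p : ℤ) ∣ discr k → p ∣ N) →
      (∀ j, (f j).map (algebraMap k (AlgebraicClosure k)) =
        C (c₀ j) * ∏ i, ((X : (AlgebraicClosure k)[X]) - C (a i)) ^ e j i) →
      (∀ j, c₀ j ≠ 0) → Function.Injective a → (∀ j, ℓ ∣ ∑ i, e j i) → (∀ i, ∃ j, ¬ ℓ ∣ e j i) →
      2 ≤ m → (∀ u : Fin m → ℕ, (∀ i, ℓ ∣ ∑ j, u j * e j i) → ∀ j, ℓ ∣ u j) →
      (ℓ = 2 → ∀ p l, p ≠ l → ∃ i, i ≠ p ∧ i ≠ l ∧ ∃ j, Odd (e j i + e j p + e j l)) →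
      (ℓ = 2 → (∀ (u : Fin m → ℕ) (i : Fin r), Odd (∑ j, u j * e j i) →
          (Finset.univ.filter fun l => Odd (∑ j, u j * e j l)).card ≤ 2 →
          a i ∈ Set.range (algebraMap k (AlgebraicClosure k))) ∧
        ∃ i, a i ∈ Set.range (algebraMap k (AlgebraicClosure k)) ∨
          ∀ u : Fin m → ℕ, Odd (∑ j, u j * e j i) →
            4 < (Finset.univ.filter fun l => Odd (∑ j, u j * e j l)).card) →
      2 ≤ g → 2 * g + 2 * ℓ ^ m = 2 + r * ℓ ^ (m - 1) * (ℓ - 1) →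
      KumJac g ℓ (ON k N).subtype f A →
      HLe g (ON k N).subtype A (c (N, g, Module.finrank ℚ k)) := by
  obtain ⟨c, hc, H⟩ := Kh.kum_main2
  exact ⟨c, hc, fun ℓ N g m r k _ _ A f c₀ a e h1 h2 h3 hf h4 h5 h6 h7 h8 h9 h10 h10' h11 h12 hA =>
    (H ℓ N g m r k A f c₀ a e h2 h3 (fun j => (hf j).trans (Kh.od_F c₀ a e j).symm)
      ⟨⟨h1, h6, h7, h9⟩, h4, fun _ => one_ne_zero, (Kh.od_a c₀ a).symm ▸ h5⟩ h8 h10 h10' h11 h12
      hA).st⟩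

/-! The statement below is not the hand-in. -/

/-- The case of rational branch points. -/
theorem split : ∃ c : ℕ × ℕ × ℕ → ℕ, Computable c ∧
    ∀ (ℓ N g m r : ℕ) (k : Type) [Field k] [NumberField k] (A : Over (Spec (.of (ON k N))))
      (c₀ : Fin m → k) (a : Fin r → k) (e : Fin m → Fin r → ℕ),
      ℓ.Prime → 0 < N → (∀ p : ℕ, p.Prime → (p : ℤ) ∣ discr k → p ∣ N) →
      (∀ j, c₀ j ≠ 0) → Function.Injective a → (∀ j, ℓ ∣ ∑ i, e j i) → (∀ i, ∃ j, ¬ ℓ ∣ e j i) →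
      2 ≤ m → (∀ u : Fin m → ℕ, (∀ i, ℓ ∣ ∑ j, u j * e j i) → ∀ j, ℓ ∣ u j) →
      (ℓ = 2 → ∀ p l, p ≠ l → ∃ i, i ≠ p ∧ i ≠ l ∧ ∃ j, Odd (e j i + e j p + e j l)) →
      2 ≤ g → 2 * g + 2 * ℓ ^ m = 2 + r * ℓ ^ (m - 1) * (ℓ - 1) →
      KumJac g ℓ (ON k N).subtype (fun j => C (c₀ j) * ∏ i, (X - C (a i)) ^ e j i) A →
      HLe g (ON k N).subtype A (c (N, g, Module.finrank ℚ k)) := by
  obtain ⟨c, hc, H⟩ := result
  refine ⟨c, hc, fun ℓ N g m r k _ _ A c₀ a e h1 h2 h3 h4 h5 h6 h7 h8 h9 h10 h11 h12 hA =>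
    H ℓ N g m r k A _ (fun j => algebraMap k _ (c₀ j)) (fun i => algebraMap k _ (a i)) e h1 h2 h3
      (fun j => by simp [Polynomial.map_prod]) (fun j => (_root_.map_ne_zero _).2 (h4 j))
      ((algebraMap k _).injective.comp h5) h6 h7 h8 h9 h10 (fun _ => ⟨fun _ i _ _ => ⟨_, rfl⟩,
        ⟨0, by have := (Kh.nums h1 h8 h11 h12).2.2.1; omega⟩, .inl ⟨_, rfl⟩⟩) h11 h12 hA⟩

end Pool.Agent.Results.MP_07b2d0_nt.KummerHeight
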