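import Pool.Agent.Lib.MP_07b2d0_nt.G3.Top

set_option autoImplicit false

namespace Pool.Agent.Results.MP_07b2d0_nt.QuarticHeight

open CategoryTheory AlgebraicGeometry MvPolynomial NumberField Pool.Agent.Lib.MP_07b2d0_nt
  Pool.Agent.Lib.MP_07b2d0_nt.St

theorem result : ∃ c : ℕ → ℕ → ℕ, Computable₂ c ∧
    ∀ (N : ℕ) (k : Type) [Field k] [NumberField k] (A : Over (Spec (.of (ON k N))))
      (f : MvPolynomial (Fin 2) k),
      0 < N → (∀ p : ℕ, p.Prime → (p : ℤ) ∣ discr k → p ∣ N) →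
      (f - X 0 ^ 2 * X 1 ^ 2).totalDegree ≤ 3 →
      (∀ n, f.coeff (Finsupp.single n 3) ≠ 0) →
      (∀ z : Fin 2 → AlgebraicClosure k, aeval z f = 0 → ∃ n, aeval z (pderiv n f) ≠ 0) →
      OddUnit (f.map (algebraMap k (AlgebraicClosure k))) →
      PlJac (ON k N).subtype f A →
      HLe 3 (ON k N).subtype A (c N (Module.finrank ℚ k)) := by
  obtain ⟨c, hc, H⟩ := G3.quartic_main
  exact ⟨c, hc, fun N k _ _ A f h1 h2 h3 h4 h5 h6 h7 => (H N k A f h1 h2 h3 h4 h5 h6 h7).st⟩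

end Pool.Agent.Results.MP_07b2d0_nt.QuarticHeight
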