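import Pool.Agent.Lib.MP_07b2d0_nt.Tq.Top

set_option autoImplicit false

namespace Pool.Agent.Results.MP_07b2d0_nt.TorsionHeight

open CategoryTheory AlgebraicGeometry Polynomial NumberField Pool.Agent.Lib.MP_07b2d0_nt
  Pool.Agent.Lib.MP_07b2d0_nt.St

theorem result : ∃ c : ℕ × ℕ × ℕ → ℕ, Computable c ∧
    ∀ (ℓ N g r : ℕ) (k : Type) [Field k] [NumberField k] (A : Over (Spec (.of (ON k N))))
      (f : k[X]) (c₀ : AlgebraicClosure k) (a : Fin r → AlgebraicClosure k) (e : Fin r → ℕ),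
      ℓ.Prime → 0 < N → (∀ p : ℕ, p.Prime → (p : ℤ) ∣ discr k → p ∣ N) →
      f.map (algebraMap k (AlgebraicClosure k)) =
        C c₀ * ∏ i, ((X : (AlgebraicClosure k)[X]) - C (a i)) ^ e i → c₀ ≠ 0 →
      Function.Injective a → (∀ i, ¬ ℓ ∣ e i) → ℓ ∣ ∑ i, e i → 5 ≤ r →
      2 * g + 2 * ℓ = 2 + r * (ℓ - 1) → Tor ℓ f →
      KumJac g ℓ (ON k N).subtype (fun _ : Fin 1 => f) A →
      HLe g (ON k N).subtype A (c (N, g, Module.finrank ℚ k)) := by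
  obtain ⟨c, hc, H⟩ := Tq.tor_main
  exact ⟨c, hc, fun ℓ N g r k _ _ A f c₀ a e h1 h2 h3 h4 h5 h6 h7 h8 h9 h10 h11 hA =>
    (H ℓ N g r k A f c₀ a e h1 h2 h3 h4 h5 h6 h7 h8 h9 h10 h11 hA).st⟩

end Pool.Agent.Results.MP_07b2d0_nt.TorsionHeight
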